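import Pool.Agent.Helper28.MT.Goals3

/-!
# Project MT3 (MP_bb782b_co), packet STEPN3: one more set, natural costs
-/

set_option autoImplicit false

namespace Pool.Agent.Helper75.MT3

open Finset
open Pool.Agent.Helper55.Rota
open Pool.Agent.Helper28.MT Pool.Agent.Helper28.MT3

/-- the pointwise bound -/
lemma ptw (s : ℕ) (c0 : ℕ → ℕ) (h0 : c0 0 = 0) (H Ct : ℕ) (hH : H ≤ Ct) :
    H ≤ ∑ l ∈ range s, (if 2 * c0 l ≤ H ∧ 0 < H then 2 * c0 (l + 1) else 0) +
      (if 2 * c0 s ≤ H ∧ 0 < H then Ct else 0) := by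
  rcases Nat.eq_zero_or_pos H with h | h
  · rw [h]
    exact Nat.zero_le _
  by_cases hs : 2 * c0 s ≤ H
  · rw [if_pos ⟨hs, h⟩]
    omega
  · have hex : ∃ l < s, 2 * c0 l ≤ H ∧ H < 2 * c0 (l + 1) := by
      by_contra hcon
      push Not at hcon
      have hall : ∀ l ≤ s, 2 * c0 l ≤ H := by
        intro l
        induction l with
        | zero =>
          intro _
          rw [h0]
          omega
        | succ l ih =>
          intro hl
          exact hcon l (by omega) (ih (by omega))
      exact hs (hall s le_rfl)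
    obtain ⟨l, hl, h1, h2⟩ := hex
    have h3 := single_le_sum
      (f := fun l => if 2 * c0 l ≤ H ∧ 0 < H then 2 * c0 (l + 1) else 0)
      (fun _ _ => Nat.zero_le _) (mem_range.2 hl)
    rw [if_pos ⟨h1, h⟩] at h3
    omega

lemma pool_lt {s l j : ℕ} (hl : l ≤ s) (hj : j < 2 ^ s) : j / 2 ^ l + 2 < 2 ^ (s + 2 - l) := by
  have h1 : j / 2 ^ l < 2 ^ (s - l) := by
    apply Nat.div_lt_of_lt_mul
    rw [← pow_add]
    have : l + (s - l) = s := by omega
    rw [this]
    exact hj
  have h2 : s + 2 - l = (s - l) + 2 := by omega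
  rw [h2, pow_add]
  generalize j / 2 ^ l = e at h1
  omega

theorem mt3_stepn3 : G_K3 → G_ENC → G_U → G_STEPN3 := by
  intro hK hE hU α _ _ R n k h s b t a f j V C L c0 Ct hk hn hnk hkh hkh2 hs hsh hj hSet hLab hV1
    hV2 hL hc00 hc0 hCt
  obtain ⟨hR, hloop, hblk, hcls, hinj⟩ := hSet
  obtain ⟨hLa, hLb⟩ := hLab
  set S := alw3 s f j \ V with hS
  set S0 := tp s f \ V with hS0
  have hS0S : S0 ⊆ S := by
    intro x hx
    rw [hS0, mem_sdiff] at hx
    rw [hS, mem_sdiff]
    refine ⟨?_, hx.2⟩
    have hx1 := hx.1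
    simp only [tp, mem_filter, mem_univ, true_and] at hx1
    simp only [alw3, mem_filter, mem_univ, true_and]
    exact Or.inl hx1
  -- the hypothesis of `G_K3`
  have hcond : ∀ (I : Finset (Fin n)) (F : Finset α), Closed R F → R.r F < I.card →
      k * (I.card - R.r F) ≤ (blkU b I \ F).card ∧
      (blkU b I \ F).card ≤ 8 * (S0 ∩ (blkU b I \ F)).card := by
    intro I F hF hlt
    obtain ⟨h1, h1'⟩ := hLb I F hF hlt
    refine ⟨h1, ?_⟩
    have h2 : tp s f ∩ (blkU b I \ F) ⊆ (S0 ∩ (blkU b I \ F)) ∪ (V ∩ tp s f) := by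
      intro x hx
      rw [mem_inter] at hx
      rw [mem_union, mem_inter, mem_inter]
      by_cases hu : x ∈ V
      · exact Or.inr ⟨hu, hx.1⟩
      · exact Or.inl ⟨mem_sdiff.2 ⟨hx.1, hu⟩, hx.2⟩
    have h3 := (card_le_card h2).trans (card_union_le _ _)
    have h4 : k * 1 ≤ k * (I.card - R.r F) := Nat.mul_le_mul_left k (by omega)
    omega
  obtain ⟨T, y, v, hOptA, hG1, -, hG3⟩ := hK α R n k b S S0 C hR hloop (by omega) hS0S hcond
  have hOpt := hOptA.1
  have hOpt' := hOpt
  obtain ⟨hT1, hT2, hT3, hT4, hT5, hT6, hT7⟩ := hOpt'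
  -- the gaps on the top
  have hgap : ∀ x ∈ S0, y (b x) - v x ≤ Ct := by
    intro x hx
    have h1 := hT5 x (hS0S hx)
    have h2 := hCt x (mem_sdiff.1 hx).1
    omega
  have hcard : Fintype.card α = n * k := by
    have h1 := card_eq_sum_card_fiberwise (s := (univ : Finset α)) (t := (univ : Finset (Fin n)))
      (f := b) (fun _ _ => mem_coe.2 (mem_univ _))
    rw [sum_congr rfl (fun i _ => hblk i), sum_const, card_univ, card_univ, Fintype.card_fin,
      smul_eq_mul] at h1
    exact h1
  -- the sets of the short descriptions are small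
  have hkey : ∀ l ≤ s, ∀ ee, s - l + 1 ≤ ee → ee ≤ 5 * h → ∀ U ∈ Vf R n k h b t a ee,
      (∀ x ∈ U, v x + c0 l < y (b x)) → U.card ≤ 2 ^ 33 * ee * k * 2 ^ (s - l) := by
    intro l hl ee he1 he2 U hUm hUx
    by_contra hcon
    rw [not_le] at hcon
    obtain ⟨hL1, hL2, hL3⟩ := hL l hl
    have h1 := hLa l hl (j / 2 ^ l + 2) (pool_lt hl hj) (L l) hL1 hL2 ee he1 he2 U hUm hcon.le
    have h2 : lab (L l) f ∩ U ⊆ V ∩ pool l (j / 2 ^ l + 2) f := by
      intro x hx
      rw [mem_inter] at hx
      obtain ⟨hx1, hx2⟩ := hx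
      simp only [lab, mem_filter, mem_univ, true_and] at hx1
      have hp : f x / 2 ^ l = j / 2 ^ l + 2 := hL1 _ hx1
      rw [mem_inter]
      constructor
      · by_contra hu
        have hxS : x ∈ S := by
          rw [hS, mem_sdiff]
          refine ⟨?_, hu⟩
          simp only [alw3, mem_filter, mem_univ, true_and]
          exact Or.inr ⟨l, by omega, hp⟩
        have h3 := hT5 x hxS
        have h4 := hL3 x hx1
        have h5 := hUx x hx2
        omega
      · simp only [pool, mem_filter, mem_univ, true_and]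
        exact hp
    have h3 := card_le_card h2
    have h4 := hV1 l hl
    have h5 : 16 * (s - l + 1) * k ≤ 16 * ee * k :=
      Nat.mul_le_mul_right k (Nat.mul_le_mul_left 16 he1)
    omega
  refine ⟨T, ∑ x, (y (b x) - v x), hT1, hT2, hT3, hG1, ?_, ?_⟩
  · have h1 : ∑ x ∈ S0, (y (b x) - v x) ≤ Fintype.card α * Ct := by
      have h2 := sum_le_card_nsmul S0 (fun x => y (b x) - v x) Ct hgap
      rw [smul_eq_mul] at h2
      exact h2.trans (Nat.mul_le_mul_right _ (card_le_univ S0))
    rw [hcard] at h1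
    calc ∑ x, (y (b x) - v x) ≤ 8 * ∑ x ∈ S0, (y (b x) - v x) := hG3
      _ ≤ 8 * (n * k * Ct) := Nat.mul_le_mul_left 8 h1
      _ = 8 * Ct * (n * k) := by ring
  · intro e he0 he
    -- the level sets are small
    have hsmall : ∀ l ≤ s, (univ.filter (fun x =>
        2 * c0 l ≤ y (b x) - v x ∧ 0 < y (b x) - v x)).card ≤
        2 ^ 33 * e l * k * 2 ^ (s - l) := by
      intro l hl
      rcases Nat.eq_zero_or_pos l with h0 | h0
      · subst h0
        obtain ⟨e', g', heg⟩ := hU α R n b S C T y v 0 hR hOpt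
        have h1 : univ.filter (fun x => v x + 0 < y (b x)) ∈ Vf R n k h b t a (e 0) := by
          rw [he0, heg]
          unfold Vf
          rw [mem_union]
          right
          rw [if_pos (by omega)]
          exact mem_image.2 ⟨(e', g'), mem_univ _, rfl⟩
        have h2 := hkey 0 (by omega) (e 0) (by omega) (by omega) _ h1 (by
          intro x hx
          simp only [mem_filter, mem_univ, true_and] at hx
          rw [hc00]
          exact hx)
        refine (card_le_card ?_).trans h2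
        intro x hx
        simp only [mem_filter, mem_univ, true_and] at hx ⊢
        omega
      · obtain ⟨he1, he2, he3⟩ := he l h0 hl
        obtain ⟨U, hUm, hU1, hU2⟩ := hE α R n k h b t a S C T y v (c0 l) (e l) (by omega) hn hkh
          hkh2 (by omega) hR hloop hblk hcls hinj hOptA (hc0 l h0 hl) (by omega) he3
        have h2 := hkey l hl (e l) he1 he2 U hUm hU2
        refine (card_le_card ?_).trans h2
        intro x hx
        simp only [mem_filter, mem_univ, true_and] at hx
        exact hU1 x (by omega)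
    have hp : ∀ x ∈ S0, y (b x) - v x ≤
        ∑ l ∈ range s, (if 2 * c0 l ≤ y (b x) - v x ∧ 0 < y (b x) - v x then
          2 * c0 (l + 1) else 0) +
        (if 2 * c0 s ≤ y (b x) - v x ∧ 0 < y (b x) - v x then Ct else 0) :=
      fun x hx => ptw s c0 hc00 _ Ct (hgap x hx)
    have hone : ∀ (l w : ℕ), ∑ x ∈ S0, (if 2 * c0 l ≤ y (b x) - v x ∧ 0 < y (b x) - v x then
          w else 0) ≤
        w * (univ.filter (fun x => 2 * c0 l ≤ y (b x) - v x ∧ 0 < y (b x) - v x)).card := by
      intro l w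
      refine (sum_le_sum_of_subset (subset_univ S0)).trans (le_of_eq ?_)
      rw [← sum_filter, sum_const, smul_eq_mul, mul_comm]
    have hsum := sum_le_sum hp
    rw [sum_add_distrib, sum_comm] at hsum
    have h1 : ∑ l ∈ range s, ∑ x ∈ S0, (if 2 * c0 l ≤ y (b x) - v x ∧ 0 < y (b x) - v x then
          2 * c0 (l + 1) else 0) ≤
        ∑ l ∈ range s, 2 * c0 (l + 1) * (2 ^ 33 * e l * k * 2 ^ (s - l)) := by
      refine sum_le_sum fun l hl => ?_
      refine (hone l (2 * c0 (l + 1))).trans (Nat.mul_le_mul_left _ (hsmall l ?_))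
      exact (mem_range.1 hl).le
    have h2 : ∑ x ∈ S0, (if 2 * c0 s ≤ y (b x) - v x ∧ 0 < y (b x) - v x then Ct else 0) ≤
        Ct * (2 ^ 33 * e s * k) := by
      refine (hone s Ct).trans (Nat.mul_le_mul_left _ ?_)
      have h3 := hsmall s le_rfl
      rw [Nat.sub_self, pow_zero, mul_one] at h3
      exact h3
    exact hG3.trans (Nat.mul_le_mul_left 8 (hsum.trans (Nat.add_le_add h1 h2)))

end Pool.Agent.Helper75.MT3
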